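import Pool.Agent.J4H96.AV.Steps

/-!
# `Δ₀ = E²_*` as soon as `Δ₀` functions can avoid the values of the functions in `E²`

Definitions:

* `Delta0 n P` (`J4H63/GZ/Defs.lean`): `P ⊆ ℕ ^ n` is defined by a bounded formula (equations and
  inequalities of polynomials, Boolean combinations, quantifiers bounded by polynomials);
* `E2 n f`, `E2star n R` (`J4H63/GZ/Defs.lean`): Grzegorczyk's class `E²` and the predicates whose
  characteristic function is in it;
* `Mostly e k P` (`J4H96/AV/Near.lean`): `P` holds with advice and few exceptions: there is a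
  constant `c` such that for every `z` there are a bound `Z` with `z ≤ Z ≤ (z + 2) ^ c` and an
  advice `a ≤ (z + 2) ^ c` for which `P a v` fails for at most `(Z + 1) ^ (k - k / e)` of the
  `(Z + 1) ^ k` vectors `v` with entries `≤ Z`.

Idea.  Let `f` be in `E²`.  Applied to the function which tells the position of `f v` in a list of
`m + 1` different numbers, the avoiding function excludes one of the numbers of the list, so that the
numbers which are never excluded form a `Δ₀` set of at most `m` candidates for `f v`.  Apply this to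
the pairs `(f x, f y)`, where `x` and `y` are at most `z`.  Either for every `x` there is a `y` for
which all candidates for the pair have the same first entry, which must be `f x`.  Or there is an
`x` such that for every `y` there is a candidate whose first entry is not `f x`; then the advice
`x, f x` leaves at most `m - 1` candidates for `f y`.  So after `m - 1` rounds `f` is `Δ₀` with
advice; and a `Δ₀` formula can verify the advice for the graph of a limited recursion.
-/

set_option autoImplicit false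

namespace Pool.Agent.Results.MP_a56640_lc.AvoidingOneValue

open Pool.Agent.J4H63.GZ Pool.Agent.J4H96.AV

theorem result (m e : ℕ) (hm : 1 ≤ m) (he : 1 ≤ e) :
    List.TFAE [
      ∀ (k : ℕ) (R : (Fin k → ℕ) → Prop), Delta0 k R ↔ E2star k R,
      ∀ (k : ℕ) (R : Fin m → (Fin k → ℕ) → Prop), (∀ i, E2star k (R i)) →
        ∃ G : Fin m → (Fin k → ℕ) → Prop, (∀ i, Delta0 k (G i)) ∧ ∀ v, ¬ ∀ i, (G i v ↔ R i v),
      ∀ (k : ℕ) (f : (Fin k → ℕ) → ℕ), E2 k f → (∀ v, f v ≤ m) →
        ∃ g : (Fin k → ℕ) → ℕ, Delta0 (k + 1) (fun w => g (fun i => w i.succ) = w 0) ∧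
          ∀ v, g v ≤ m ∧ g v ≠ f v,
      ∀ (k : ℕ) (f : (Fin k → ℕ) → ℕ), E2 k f →
        ∃ C : (Fin k → ℕ) → ℕ → Prop, Delta0 (k + 1) (fun w => C (fun i => w i.succ) (w 0)) ∧
          ∀ v, C v (f v) ∧ {y | C v y}.encard ≤ m,
      ∀ (k : ℕ) (R : Fin m → (Fin k → ℕ) → Prop), (∀ i, E2star k (R i)) →
        ∃ G : Fin m → (Fin (k + 1) → ℕ) → Prop, (∀ i, Delta0 (k + 1) (G i)) ∧
          Mostly e k (fun a v => ¬ ∀ i, (G i (Matrix.vecCons a v) ↔ R i v)),
      ∀ (k : ℕ) (f : (Fin k → ℕ) → ℕ), E2 k f → (∀ v, f v ≤ m) →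
        ∃ g : (Fin (k + 1) → ℕ) → ℕ, Delta0 (k + 2) (fun w => g (fun i => w i.succ) = w 0) ∧
          Mostly e k (fun a v => g (Matrix.vecCons a v) ≤ m ∧ g (Matrix.vecCons a v) ≠ f v),
      ∀ (k : ℕ) (f : (Fin k → ℕ) → ℕ), E2 k f →
        ∃ C : (Fin (k + 1) → ℕ) → ℕ → Prop, Delta0 (k + 2) (fun w => C (fun i => w i.succ) (w 0)) ∧
          Mostly e k (fun a v => C (Matrix.vecCons a v) (f v) ∧
            {y | C (Matrix.vecCons a v) y}.encard ≤ m)] := by
  have hgr : (∀ (k : ℕ) (R : (Fin k → ℕ) → Prop), Delta0 k R ↔ E2star k R) →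
      ∀ (k : ℕ) (f : (Fin k → ℕ) → ℕ), E2 k f →
        Delta0 (k + 1) (fun w => f (fun i => w i.succ) = w 0) := fun h k f hf =>
    (h _ _).2 (E2star.eqf (hf.projs _) (E2.proj 0))
  tfae_have 1 → 2 := by
    intro h k R hR
    exact ⟨fun i v => ¬ R i v, fun i => ((h _ _).2 (hR i)).not, fun v hv => by
      have := hv ⟨0, hm⟩
      tauto⟩
  tfae_have 1 → 3 := by
    intro h k f hf _
    classical
    refine ⟨fun v => if f v = 0 then 1 else 0, ?_, fun v => ?_⟩
    · have h0 : Bd (fun w : Fin (k + 1) → ℕ => f (fun i => w i.succ) = 0) :=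
        Bd.of_delta0 ((h _ _).2 (E2star.eqf (hf.projs _) E2.zero))
      rw [Bd.delta0_iff]
      refine (Bd.or (Bd.and h0 (Bd.eqf (PF.proj 0) (PF.const 1))) (Bd.and h0.not
        (Bd.eqf (PF.proj 0) (PF.const 0)))).congr fun w => ?_
      by_cases hw : f (fun i => w i.succ) = 0
      · simp only [hw, if_true, true_and, not_true_eq_false, false_and, or_false]
        exact eq_comm
      · simp only [hw, if_false, false_and, not_false_eq_true, true_and, false_or]
        exact eq_comm
    · dsimp only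
      split_ifs with h1
      · rw [h1]; exact ⟨hm, by omega⟩
      · exact ⟨Nat.zero_le _, fun h2 => h1 h2.symm⟩
  tfae_have 1 → 4 := by
    intro h k f hf
    refine ⟨fun v y => f v = y, hgr h k f hf, fun v => ⟨rfl, ?_⟩⟩
    have e1 : {y | f v = y} = {f v} := by
      ext y
      simp only [Set.mem_ofPred_eq, Set.mem_singleton_iff]
      exact eq_comm
    rw [e1, Set.encard_singleton]
    exact_mod_cast hm
  tfae_have 2 → 5 := by
    intro h k R hR
    obtain ⟨G, hG, hGR⟩ := h k R hR
    refine ⟨fun i w => G i (fun j => w j.succ), fun i => ?_, mostly_of_all he fun v => hGR v⟩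
    rw [Bd.delta0_iff]
    exact ((Bd.of_delta0 (hG i)).subst (f := fun j (w : Fin (k + 1) → ℕ) => w j.succ)
      fun j => PF.proj _).congr fun w => Iff.rfl
  tfae_have 3 → 6 := by
    intro h k f hf hfm
    obtain ⟨g, hg, hgf⟩ := h k f hf hfm
    refine ⟨fun w => g (fun j => w j.succ), ?_, mostly_of_all he fun v => hgf v⟩
    rw [Bd.delta0_iff]
    refine ((Bd.of_delta0 hg).subst (f := fun s (w : Fin (k + 2) → ℕ) =>
      (Matrix.vecCons (w 0) (fun j : Fin k => w j.succ.succ) : Fin (k + 1) → ℕ) s) ?_).congr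
      fun w => Iff.rfl
    intro s
    refine Fin.cases ?_ (fun s => ?_) s
    · exact PF.proj _
    · exact PF.proj _
  tfae_have 4 → 7 := by
    intro h k f hf
    obtain ⟨C, hC, hCf⟩ := h k f hf
    refine ⟨fun w => C (fun j => w j.succ), ?_, mostly_of_all he fun v => hCf v⟩
    rw [Bd.delta0_iff]
    refine ((Bd.of_delta0 hC).subst (f := fun s (w : Fin (k + 2) → ℕ) =>
      (Matrix.vecCons (w 0) (fun j : Fin k => w j.succ.succ) : Fin (k + 1) → ℕ) s) ?_).congr
      fun w => Iff.rfl
    intro s
    refine Fin.cases ?_ (fun s => ?_) s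
    · exact PF.proj _
    · exact PF.proj _
  tfae_have 5 → 1 := by
    intro h k R
    refine ⟨fun hR => e2star_of_delta0 hR, fun hR => ?_⟩
    obtain ⟨n, hn⟩ : ∃ n, 2 ^ m = n + 2 := by
      have : 2 ^ 1 ≤ 2 ^ m := Nat.pow_le_pow_right (by omega) hm
      exact ⟨2 ^ m - 2, by omega⟩
    have E : Fin (n + 2) ≃ (Fin m → Bool) := (Fintype.equivFinOfCardEq (by
      rw [Fintype.card_fun, Fintype.card_bool, Fintype.card_fin, hn])).symm
    exact collapse (m := n) (fun k f hf => enum_of_excl hf (excl_of_pred E hf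
      fun k R hR => predAdv_of_mostly he h hR)) hR
  tfae_have 6 → 1 := by
    intro h k R
    refine ⟨fun hR => e2star_of_delta0 hR, fun hR => ?_⟩
    obtain ⟨n, rfl⟩ : ∃ n, m = n + 1 := ⟨m - 1, by omega⟩
    exact collapse (m := n) (fun k f hf => enum_of_excl hf (excl_of_fun hf
      fun k f hf hfm => funAdv_of_mostly he h hf hfm)) hR
  tfae_have 7 → 1 := by
    intro h k R
    refine ⟨fun hR => e2star_of_delta0 hR, fun hR => ?_⟩
    obtain ⟨n, rfl⟩ : ∃ n, m = n + 1 := ⟨m - 1, by omega⟩
    exact collapse (m := n) (fun k f hf => enum_of_mostly he h hf) hR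
  tfae_finish

end Pool.Agent.Results.MP_a56640_lc.AvoidingOneValue
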