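import Pool.Agent.J4H68.CC.CompRed

/-!
# `Δ₀ = E²_*` is a statement about the parity of the number of components of graphs of degree `≤ 2`

Definitions:

* `Delta0 n P` (`Pool/Agent/J4H63/GZ/Defs.lean`): `P ⊆ ℕ ^ n` is defined by a bounded formula
  (equations and inequalities of polynomials, Boolean combinations, quantifiers bounded by
  polynomials);
* `E2star n R` (same file): the characteristic function of `R ⊆ ℕ ^ n` is in Grzegorczyk's class
  `E²`;
* `NearDelta0 e K R` (same file): there are a `Δ₀` predicate `S` and a constant `c` such that for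
  every `z` there are a bound `Z` with `z ≤ Z ≤ (z + 2) ^ c` and an advice `a ≤ (z + 2) ^ c` for
  which `R v ↔ S (a, v)` fails for at most `(Z + 1) ^ (K - K / e)` of the `(Z + 1) ^ K` vectors `v`
  with entries `≤ Z`;
* `InvFamily K τ` (`Pool/Agent/J4H63/GZ/Link.lean`) and `PermFamily K π`
  (`Pool/Agent/J4H68/CC/Defs.lean`): for every parameter vector `p` of length `K + 1` the function
  `τ p : ℕ → ℕ` is an involution, and `π p : ℕ → ℕ` is a permutation, which fixes all numbers
  `≥ p 0`, and the graph of `τ`, or of `π`, is `Δ₀`;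
* `numComps τ N` (`Pool/Agent/J4H68/CC/Defs.lean`): the number of the `x < N` which are the least
  element of their component in the graph on `ℕ` with the edges `{a, τ a}` and `{2 j, 2 j + 1}`
  (`Linked`, `Pool/Agent/J4H63/GZ/Walk.lean`); for `τ p` and `N = p 0` this is the number of the
  components which contain a number below `p 0`;
* `numCycles f N` (`Pool/Agent/J4H68/CC/Defs.lean`): the number of the `x < N` which are the least
  element of their orbit under `f`; for `f = π p` and `N = p 0` this is the number of the cycles of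
  `π p` on `{0, …, p 0 - 1}`, fixed points included.

Idea.  By a hand-in for this problem (`TwoInvolutions`), `Δ₀ = E²_*` as soon as one can decide in
`Δ₀` whether two numbers `x`, `y` are in the same orbit of a permutation `f` which is the product
of two involutions.  Multiplying `f` by the transposition `(x y)` splits a cycle in two, if `x`
and `y` are in the same cycle, and joins two cycles otherwise; so the number of the cycles goes up
or down by one.  For `m ≥ 3` these two cases are distinguished by the numbers of the cycles modulo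
`m`, and fixed points can be added to make these numbers multiples of `m`.  If one forgets the
orientation of the cycles, one can also replace the edges `{x, f x}`, `{y, f y}` by `{x, y}`,
`{f x, f y}`: the number of the components stays the same, if `x` and `y` are in the same cycle,
and goes down by one otherwise; these cases are distinguished modulo `2`.  The parity of the number
of the cycles of a permutation, on the other hand, is given by the parity of the number of its
inversions.
-/

set_option autoImplicit false

namespace Pool.Agent.Results.MP_a56640_lc.CyclesModM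

open Pool.Agent.J4H63.GZ Pool.Agent.J4H68.CC

theorem result (e : ℕ) (he : 1 ≤ e) :
    (∀ m : ℕ, 2 ≤ m → List.TFAE [
      ∀ (k : ℕ) (R : (Fin k → ℕ) → Prop), Delta0 k R ↔ E2star k R,
      ∀ (K : ℕ) (τ : (Fin (K + 1) → ℕ) → ℕ → ℕ), InvFamily K τ →
        Delta0 (K + 2) (fun v => numComps (τ (fun i => v i.succ)) (v 1) = v 0),
      ∀ (K : ℕ) (τ : (Fin (K + 1) → ℕ) → ℕ → ℕ), InvFamily K τ →
        Delta0 (K + 1) (fun p => m ∣ numComps (τ p) (p 0)),
      ∀ (K : ℕ) (τ : (Fin (K + 1) → ℕ) → ℕ → ℕ), InvFamily K τ →
        NearDelta0 e (K + 1) (fun p => m ∣ numComps (τ p) (p 0))]) ∧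
    (∀ m : ℕ, 3 ≤ m → List.TFAE [
      ∀ (k : ℕ) (R : (Fin k → ℕ) → Prop), Delta0 k R ↔ E2star k R,
      ∀ (K : ℕ) (π : (Fin (K + 1) → ℕ) → ℕ → ℕ), PermFamily K π →
        Delta0 (K + 2) (fun v => numCycles (π (fun i => v i.succ)) (v 1) = v 0),
      ∀ (K : ℕ) (π : (Fin (K + 1) → ℕ) → ℕ → ℕ), PermFamily K π →
        Delta0 (K + 1) (fun p => m ∣ numCycles (π p) (p 0)),
      ∀ (K : ℕ) (π : (Fin (K + 1) → ℕ) → ℕ → ℕ), PermFamily K π →
        NearDelta0 e (K + 1) (fun p => m ∣ numCycles (π p) (p 0))]) ∧
    ((∀ (K : ℕ) (π : (Fin (K + 1) → ℕ) → ℕ → ℕ), PermFamily K π →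
        Delta0 (K + 1) (fun p => 2 ∣ numCycles (π p) (p 0))) ↔
      ∀ (K : ℕ) (P : (Fin (K + 2) → ℕ) → Prop), Delta0 (K + 2) P →
        Delta0 (K + 1) (fun p => 2 ∣ {x : ℕ | x < p 0 ∧ P (Matrix.vecCons x p)}.ncard)) := by
  refine ⟨fun m hm => ?_, fun m hm => ?_, fun h _ _ hP => parity_of_two h hP,
    fun h _ _ hπ => two_of_parity h hπ⟩
  · tfae_have 1 → 2 := fun h K τ hτ => (h _ _).2 (e2star_graph' hτ)
    tfae_have 2 → 3 := fun h K τ hτ => delta0_dvd' m (h K τ hτ)
    tfae_have 3 → 4 := fun h K τ hτ => near_of_delta0 he (h K τ hτ)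
    tfae_have 4 → 1 := fun h k R => ⟨fun hR => e2star_of_delta0 hR,
      fun hR => delta0_of_comps he hm h hR⟩
    tfae_finish
  · tfae_have 1 → 2 := fun h K π hπ => (h _ _).2 hπ.e2star_graph
    tfae_have 2 → 3 := fun h K π hπ => delta0_dvd m (h K π hπ)
    tfae_have 3 → 4 := fun h K π hπ => near_of_delta0 he (h K π hπ)
    tfae_have 4 → 1 := fun h k R => ⟨fun hR => e2star_of_delta0 hR,
      fun hR => delta0_of_cycles he hm h hR⟩
    tfae_finish

end Pool.Agent.Results.MP_a56640_lc.CyclesModM
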