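import Pool.Agent.J4H96.TC.Dec
import Pool.Agent.J4H96.TC.Fam
import Pool.Agent.J4H68.TC.Acy
import Pool.Agent.J4H68.TC.Lb
import Pool.Agent.J4H63.TC.Col
import Pool.Agent.J4H25.TC.Pth
import Pool.Agent.J4H63.GZ.Main

/-!
# `Δ₀ = E²_*` is a statement about the two-colourings of graphs of degree at most two

Definitions:

* `Delta0 n P` (`J4H63/GZ/Defs.lean`): `P ⊆ ℕ ^ n` is defined by a bounded formula (equations and
  inequalities of polynomials, Boolean combinations, quantifiers bounded by polynomials);
* `E2star n R` (`J4H63/GZ/Defs.lean`): the predicates whose characteristic function is in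
  Grzegorczyk's class `E²`;
* `GraphFamily K E` (`J4H96/TC/Stm.lean`, as all the following): for every parameter vector `p` of
  length `K + 1` the relation `E p` is a simple graph of degree at most two, whose edges are
  between numbers `< p 0`, and `E p a b` is `Δ₀` in `a`, `b`, `p`;
* `Proper E C`: the set `C` contains exactly one end of every edge;
* `Bipartite E`: there is such a set;
* `AllPaths E`: every vertex is connected to a vertex which has at most one neighbour, that is, no
  component is a cycle.

The components of a graph of degree at most two are paths and cycles, and a disjoint union of paths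
is always bipartite.  So (4) is a problem of a different nature: the answer to the decision problem
is always yes, and any proper colouring is welcome.

Idea of (4) ⇒ (1).  Write a recursion as a forest, and the walk around its trees as a disjoint union
of paths made by two involutions.  To find out whether the ends `u` and `v` belong to the same path,
subdivide all edges except one, `f`.  Whatever the colouring `C_f` is, `u` and `v` have the same
colour exactly if `f` is not on a path between them.  So a `Δ₀` formula can verify the local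
consistency of the set of the edges `f` for which the colours of `u` and `v` are different; if it is
consistent, the set contains the whole path which begins with `u`, which is only possible if it
ends with `v`, since the number of its vertices is even.
-/

set_option autoImplicit false

namespace Pool.Agent.Results.MP_a56640_lc.TwoColourings

open Pool.Agent.J4H63.GZ Pool.Agent.J4H96.TC

theorem result :
    List.TFAE [
      ∀ (k : ℕ) (R : (Fin k → ℕ) → Prop), Delta0 k R ↔ E2star k R,
      ∀ (K : ℕ) (E : (Fin (K + 1) → ℕ) → ℕ → ℕ → Prop), GraphFamily K E →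
        Delta0 (K + 1) (fun p => Bipartite (E p)),
      ∀ (K : ℕ) (E : (Fin (K + 1) → ℕ) → ℕ → ℕ → Prop), GraphFamily K E →
        ∃ C : (Fin (K + 1) → ℕ) → ℕ → Prop, Delta0 (K + 2) (fun v => C (fun i => v i.succ) (v 0)) ∧
          ∀ p, Bipartite (E p) → Proper (E p) (C p),
      ∀ (K : ℕ) (E : (Fin (K + 1) → ℕ) → ℕ → ℕ → Prop), GraphFamily K E →
        (∀ p, AllPaths (E p)) →
        ∃ C : (Fin (K + 1) → ℕ) → ℕ → Prop, Delta0 (K + 2) (fun v => C (fun i => v i.succ) (v 0)) ∧
          ∀ p, Proper (E p) (C p)] := by
  tfae_have 1 → 3 := fun h => Pool.Agent.J4H63.TC.t_COL fun K τ hτ => (h _ _).2 hτ.e2star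
  tfae_have 3 → 4 := by
    intro h K E hE hA
    obtain ⟨C, hC, hC'⟩ := h K E hE
    exact ⟨C, hC, fun p => hC' p (Pool.Agent.J4H68.TC.t_LB (E p) (hE.symm p) (hE.ne p) (hE.deg p)
      (hA p))⟩
  tfae_have 4 → 1 := fun h k R => ⟨fun hR => e2star_of_delta0 hR, fun hR =>
    Pool.Agent.J4H68.TC.t_ACY (t_CORE t_FAM Pool.Agent.J4H25.TC.t_PTH h) k R hR⟩
  tfae_have 3 → 2 := by
    intro h K E hE
    obtain ⟨C, hC, hC'⟩ := h K E hE
    rw [Bd.delta0_iff]
    have h0 : ∀ i, PF (fun v : Fin (K + 1) → ℕ => v i) := fun i => PF.proj i
    have h1 : ∀ i, PF (fun v : Option (Fin (K + 1)) → ℕ => v (some i)) := fun i => PF.proj _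
    have h2 : ∀ i, PF (fun v : Option (Option (Fin (K + 1))) → ℕ => v (some (some i))) :=
      fun i => PF.proj _
    have ha : PF (fun v : Option (Option (Fin (K + 1))) → ℕ => v (some none)) := PF.proj _
    have hb : PF (fun v : Option (Option (Fin (K + 1))) → ℕ => v none) := PF.proj _
    have key : Bd (fun v : Fin (K + 1) → ℕ => ∀ a < v 0, ∀ b < v 0, E v a b →
        (C v a ↔ ¬ C v b)) := by
      refine Bd.all_lt (b := fun v : Fin (K + 1) → ℕ => v 0) (P := fun v a => ∀ b < v 0, E v a b →
        (C v a ↔ ¬ C v b)) (h0 0) ?_
      refine Bd.all_lt (b := fun v : Option (Fin (K + 1)) → ℕ => v (some 0)) (P := fun v b =>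
        E (fun i => v (some i)) (v none) b →
        (C (fun i => v (some i)) (v none) ↔ ¬ C (fun i => v (some i)) b)) (h1 0) ?_
      refine Bd.imp ?_ (Bd.iff ?_ (Bd.not ?_))
      · refine ((Bd.of_delta0 hE.delta0).subst (f := fun i (v : Option (Option (Fin (K + 1))) → ℕ) =>
          (Matrix.vecCons (v (some none)) (Matrix.vecCons (v none) (fun j => v (some (some j)))) :
            Fin (K + 3) → ℕ) i) (PF.cons ha (PF.cons hb h2))).congr fun v => ?_
        exact Iff.rfl
      · refine ((Bd.of_delta0 hC).subst (f := fun i (v : Option (Option (Fin (K + 1))) → ℕ) =>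
          (Matrix.vecCons (v (some none)) (fun j => v (some (some j))) :
            Fin (K + 2) → ℕ) i) (PF.cons ha h2)).congr fun v => ?_
        exact Iff.rfl
      · refine ((Bd.of_delta0 hC).subst (f := fun i (v : Option (Option (Fin (K + 1))) → ℕ) =>
          (Matrix.vecCons (v none) (fun j => v (some (some j))) :
            Fin (K + 2) → ℕ) i) (PF.cons hb h2)).congr fun v => ?_
        exact Iff.rfl
    refine key.congr fun p => ⟨fun h a _ b _ hab => hC' p h a b hab, fun h => ⟨C p, fun a b hab =>
      h a (hE.lt p a b hab) b (hE.lt p b a (hE.symm p a b hab)) hab⟩⟩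
  tfae_have 2 → 1 := fun h k R => ⟨fun hR => e2star_of_delta0 hR, fun hR =>
    delta0_of_link le_rfl (fun K τ hτ => near_of_delta0 le_rfl (t_DEC t_FAM h K τ hτ)) hR⟩
  tfae_finish

end Pool.Agent.Results.MP_a56640_lc.TwoColourings
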