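import Pool.Agent.J4H63.GZ.Conv

/-!
# `Δ₀ = E²_*` is a statement about the orbits of two involutions, even with advice and errors

Definitions (in `Pool/Agent/J4H63/GZ`):

* `Delta0 n P` (`Defs.lean`): `P ⊆ ℕ ^ n` is defined by a bounded formula (equations and
  inequalities of polynomials, Boolean combinations, quantifiers bounded by polynomials);
* `E2 n f`, `E2star n R` (`Defs.lean`): Grzegorczyk's class `E²` and the predicates whose
  characteristic function is in it;
* `NearDelta0 m K R` (`Defs.lean`): there are a `Δ₀` predicate `S` and a constant `c` such that for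
  every `z` there are a bound `Z` with `z ≤ Z ≤ (z + 2) ^ c` and an advice `a ≤ (z + 2) ^ c` for
  which `R v ↔ S (a, v)` fails for at most `(Z + 1) ^ (K - K / m)` of the `(Z + 1) ^ K` vectors `v`
  with entries `≤ Z`;
* `InvFamily K τ` (`Link.lean`): for every parameter vector `p` of length `K + 1` the function
  `τ p : ℕ → ℕ` is an involution which fixes all numbers `≥ p 0`, and the graph of `τ` is `Δ₀`;
* `Linked τ x y` (`Walk.lean`): `x` and `y` are connected by steps `a ↦ τ a` and steps between the
  two elements of a pair `{2 j, 2 j + 1}`; `LinkRel τ` (`Link.lean`) is this relation, for `τ p`, as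
  a predicate on the vectors `(x, y, p)`.

The graph with the edges `{a, τ a}` and `{2 j, 2 j + 1}` consists of paths and cycles, so that
`LinkRel τ` is the question whether two vertices are on the same path or cycle.

Idea.  A limited recursion with a `Δ₀` step function is a forest with a root for each final value;
the walk around the trees of the forest is made by two involutions.  So the value after `t` steps,
cut off at `z`, can be read off from `LinkRel`; and a `Δ₀` formula can verify that an advice is
correct, because the graph of the recursion is the only solution of the recursion equations.  Few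
errors can be avoided by a vector of dummy variables, which becomes a part of the advice.
-/

set_option autoImplicit false

namespace Pool.Agent.Results.MP_a56640_lc.TwoInvolutions

open Pool.Agent.J4H63.GZ

theorem result (m : ℕ) (hm : 1 ≤ m) :
    List.TFAE [
      ∀ (k : ℕ) (R : (Fin k → ℕ) → Prop), Delta0 k R ↔ E2star k R,
      ∀ (K : ℕ) (τ : (Fin (K + 1) → ℕ) → ℕ → ℕ), InvFamily K τ → Delta0 (K + 3) (LinkRel τ),
      ∀ (K : ℕ) (τ : (Fin (K + 1) → ℕ) → ℕ → ℕ), InvFamily K τ →
        NearDelta0 m (K + 3) (LinkRel τ),
      ∀ (k : ℕ) (R : (Fin k → ℕ) → Prop), E2star k R → NearDelta0 m k R] := by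
  tfae_have 1 → 2 := fun h K τ hτ => (h _ _).2 hτ.e2star
  tfae_have 2 → 3 := fun h K τ hτ => near_of_delta0 hm (h K τ hτ)
  tfae_have 3 → 1 := fun h k R => ⟨fun hR => e2star_of_delta0 hR, fun hR => delta0_of_link hm h hR⟩
  tfae_have 1 → 4 := fun h k R hR => near_of_delta0 hm ((h k R).2 hR)
  tfae_have 4 → 1 := fun h k R => ⟨fun hR => e2star_of_delta0 hR, fun hR => delta0_of_near hm h hR⟩
  tfae_finish

end Pool.Agent.Results.MP_a56640_lc.TwoInvolutions
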